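import Mathlib

/-! Load inequality for the tripartite fractional theorem (note 3115 of helper64). -/

namespace H83Load

/-- the key function of note 3115 -/
noncomputable def hh (u : ℝ) : ℝ := 2 * u ^ 3 / (1 + 3 * u ^ 2)

theorem hh_cont : Continuous hh := by
  unfold hh
  apply Continuous.div (by fun_prop) (by fun_prop)
  intro x; positivity

theorem hh_add (u v : ℝ) (huv : u + v = 2) : 1 ≤ hh u + hh v := by
  have hv : v = 2 - u := by linarith
  subst hv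
  unfold hh
  have h1 : (0:ℝ) < 1 + 3 * u ^ 2 := by positivity
  have h2 : (0:ℝ) < 1 + 3 * (2 - u) ^ 2 := by positivity
  rw [div_add_div _ _ h1.ne' h2.ne', le_div_iff₀ (mul_pos h1 h2)]
  nlinarith [sq_nonneg (1 - u * (2 - u))]

theorem hh_two : 1 ≤ hh 2 := by
  unfold hh; norm_num

theorem exists_root (A : ℝ) (h0 : 0 ≤ A) (h1 : A ≤ 1) : ∃ u ∈ Set.Icc (0:ℝ) 2, hh u = A := by
  have := intermediate_value_Icc (show (0:ℝ) ≤ 2 by norm_num) hh_cont.continuousOn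
  have hA : A ∈ Set.Icc (hh 0) (hh 2) := ⟨by simpa [hh] using h0, h1.trans hh_two⟩
  obtain ⟨u, hu, hu'⟩ := this hA
  exact ⟨u, hu, hu'⟩

/-- one side: if `a^3 ≤ hh u * S` then the share is at most `u / 2` for every `m` -/
theorem side (a S m u : ℝ) (ha : 0 ≤ a) (hm : 0 ≤ m) (_hS : 0 < S) (hu : 0 ≤ u)
    (h : a ^ 3 ≤ hh u * S) :
    3 / 4 * a * (a ^ 2 + m ^ 2) ≤ u / 2 * (S + m ^ 3) := by
  rcases hu.eq_or_lt with hu0 | hu0
  · have : hh u = 0 := by rw [← hu0]; simp [hh]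
    rw [this, zero_mul] at h
    have ha0 : a = 0 := by
      by_contra hne
      have : 0 < a := lt_of_le_of_ne ha (Ne.symm hne)
      have : 0 < a ^ 3 := by positivity
      linarith
    rw [ha0, ← hu0]; simp
  · -- put c = a / u
    obtain ⟨c, hc⟩ : ∃ c, a = u * c := ⟨a / u, by field_simp⟩
    have hc0 : 0 ≤ c := by
      by_contra hneg
      push Not at hneg
      have : u * c < 0 := mul_neg_of_pos_of_neg hu0 hneg
      linarith
    subst hc
    have h1 : (0:ℝ) < 1 + 3 * u ^ 2 := by positivity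
    have h2 : c ^ 3 * (1 + 3 * u ^ 2) ≤ 2 * S := by
      unfold hh at h
      rw [div_mul_eq_mul_div, le_div_iff₀ h1] at h
      have hu3 : (0:ℝ) < u ^ 3 := by positivity
      have : u ^ 3 * (c ^ 3 * (1 + 3 * u ^ 2)) ≤ u ^ 3 * (2 * S) := by nlinarith
      exact le_of_mul_le_mul_left this hu3
    have h3 : 3 * c * m ^ 2 ≤ c ^ 3 + 2 * m ^ 3 := by
      nlinarith [mul_nonneg (sq_nonneg (m - c)) (by positivity : (0:ℝ) ≤ 2 * m + c)]
    have h4 : 3 * (u ^ 2 * c ^ 3 + c * m ^ 2) ≤ 2 * (S + m ^ 3) := by nlinarith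
    have h5 : u * (3 * (u ^ 2 * c ^ 3 + c * m ^ 2)) ≤ u * (2 * (S + m ^ 3)) :=
      mul_le_mul_of_nonneg_left h4 hu
    nlinarith

/-- THE LOAD INEQUALITY -/
theorem exists_split (a b : ℝ) (ha : 0 ≤ a) (hb : 0 ≤ b) :
    ∃ t t' : ℝ, 0 ≤ t ∧ 0 ≤ t' ∧ t + t' = 1 ∧
      (∀ m, 0 ≤ m → 3 / 4 * a * (a ^ 2 + m ^ 2) ≤ t * (a ^ 3 + b ^ 3 + m ^ 3)) ∧
      (∀ m, 0 ≤ m → 3 / 4 * b * (b ^ 2 + m ^ 2) ≤ t' * (a ^ 3 + b ^ 3 + m ^ 3)) := by
  rcases (by positivity : (0:ℝ) ≤ a ^ 3 + b ^ 3).eq_or_lt with hS | hS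
  · have ha3 : a ^ 3 = 0 := by nlinarith [pow_nonneg ha 3, pow_nonneg hb 3]
    have hb3 : b ^ 3 = 0 := by nlinarith [pow_nonneg ha 3, pow_nonneg hb 3]
    have ha0 : a = 0 := by simpa using ha3
    have hb0 : b = 0 := by simpa using hb3
    subst ha0 hb0
    refine ⟨1 / 2, 1 / 2, by norm_num, by norm_num, by norm_num, ?_, ?_⟩ <;>
    · intro m hm
      have := pow_nonneg hm 3
      nlinarith
  · have hA0 : 0 ≤ a ^ 3 / (a ^ 3 + b ^ 3) := by positivity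
    have hA1 : a ^ 3 / (a ^ 3 + b ^ 3) ≤ 1 := by
      rw [div_le_one hS]; nlinarith [pow_nonneg hb 3]
    obtain ⟨u, ⟨hu0, hu2⟩, hu⟩ := exists_root _ hA0 hA1
    have hv := hh_add u (2 - u) (by ring)
    have e1 : a ^ 3 ≤ hh u * (a ^ 3 + b ^ 3) := by
      rw [hu, div_mul_cancel₀ _ hS.ne']
    have e2 : b ^ 3 ≤ hh (2 - u) * (a ^ 3 + b ^ 3) := by
      have h3 : hh u * (a ^ 3 + b ^ 3) = a ^ 3 := by rw [hu, div_mul_cancel₀ _ hS.ne']
      nlinarith
    refine ⟨u / 2, (2 - u) / 2, by linarith, by linarith, by ring, ?_, ?_⟩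
    · intro m hm
      exact side a _ m u ha hm hS hu0 e1
    · intro m hm
      exact side b _ m (2 - u) hb hm hS (by linarith) e2

end H83Load
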